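import Pool.Agent.Helper99.SZ.Stmts3
import Pool.Agent.Helper99.BK.Stmts

namespace Pool.Helper99.SZ

/-- coefficient of the expansion of an entry -/
noncomputable def ad0co (k : ℕ) (u : ℂ) (s : ℕ) : ℂ :=
  if k ≤ s then u ^ (s - k) / ((s - k).factorial : ℂ) else 0

/-- expansion of one entry -/
theorem ad0_entry (h4 : Pool.Helper99.BK.ST_AN4) (T k : ℕ) (z u P : ℂ) :
    ∃ r : ℂ → ℂ, Differentiable ℂ r ∧ ∀ w : ℂ, ((w * z) ^ k * P) * Complex.exp (w * (u * z)) =
      (∑ s ∈ Finset.range T, w ^ s * (ad0co k u s * (z ^ s * P))) + w ^ T * r w := by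
  by_cases hk : T ≤ k
  · refine ⟨fun w => w ^ (k - T) * z ^ k * P * Complex.exp (w * (u * z)), by fun_prop, fun w => ?_⟩
    have h0 : (∑ s ∈ Finset.range T, w ^ s * (ad0co k u s * (z ^ s * P))) = 0 := by
      apply Finset.sum_eq_zero
      intro s hs
      have := Finset.mem_range.1 hs
      rw [ad0co, if_neg (by omega), zero_mul, mul_zero]
    rw [h0, zero_add, mul_pow]
    have h1 : w ^ k = w ^ T * w ^ (k - T) := by
      rw [← pow_add]
      congr 1
      omega
    rw [h1]
    ring
  · push Not at hk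
    obtain ⟨m, rfl⟩ : ∃ m, T = k + m := ⟨T - k, by omega⟩
    obtain ⟨r, hr, hr'⟩ := h4 m
    refine ⟨fun w => z ^ k * P * (u * z) ^ m * r (w * (u * z)), ?_, fun w => ?_⟩
    · exact (differentiable_const _).mul (hr.comp (by fun_prop))
    · rw [Finset.sum_range_add]
      have h0 : (∑ s ∈ Finset.range k, w ^ s * (ad0co k u s * (z ^ s * P))) = 0 := by
        apply Finset.sum_eq_zero
        intro s hs
        have := Finset.mem_range.1 hs
        rw [ad0co, if_neg (by omega), zero_mul, mul_zero]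
      rw [h0, zero_add, hr' (w * (u * z)), mul_add, Finset.mul_sum]
      congr 1
      · refine Finset.sum_congr rfl fun s _ => ?_
        rw [ad0co, if_pos (by omega), add_tsub_cancel_left]
        ring
      · ring

theorem ad0_sum : ∀ (m : ℕ) (S : Finset ℕ), S.card = m → m * (m - 1) ≤ 2 * ∑ s ∈ S, s := by
  intro m
  induction m with
  | zero => intro S _; simp
  | succ m ih =>
    intro S hS
    have hne : S.Nonempty := Finset.card_pos.1 (by omega)
    have hmax := S.max'_mem hne
    have h1 := ih (S.erase (S.max' hne)) (by rw [Finset.card_erase_of_mem hmax, hS]; rfl)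
    have h2 : S.card ≤ S.max' hne + 1 := by
      have : S ⊆ Finset.range (S.max' hne + 1) := by
        intro s hs
        rw [Finset.mem_range]
        have := S.le_max' s hs
        omega
      simpa using Finset.card_le_card this
    rw [← Finset.add_sum_erase S (fun s => s) hmax, mul_add]
    have h3 : m ≤ S.max' hne := by omega
    rcases m with _ | m
    · simp
    · simp only [Nat.add_sub_cancel] at h1 ⊢
      nlinarith

theorem ad0_sum' {ι : Type} [DecidableEq ι] (S : Finset ι) (t : ι → ℕ)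
    (ht : ∀ s, (S.filter (fun j => t j = s)).card ≤ 1) :
    S.card * (S.card - 1) ≤ 2 * ∑ j ∈ S, t j := by
  have hinj : Set.InjOn t S := by
    intro a ha b hb hab
    have h := Finset.card_le_one.1 (ht (t b))
    exact h a (by simp [hab]; exact ha) b (by simp; exact hb)
  have h1 := ad0_sum S.card (S.image t) (Finset.card_image_of_injOn hinj)
  rwa [Finset.sum_image hinj] at h1

/-- the group of a column -/
def ad0grp {v K Lc : ℕ} (j1 : Fin v) (j : Sx v K × Fin Lc) : Sb v K j1 :=
  ⟨Function.update j.1.1 j1 0, by simp, by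
    refine le_trans (Finset.sum_le_sum fun i _ => ?_) j.1.2
    by_cases h : i = j1
    · subst h; simp
    · rw [Function.update_of_ne h]⟩

theorem st_AD0 (hANG : ST_ANG) (hAN5R : ST_AN5R) (hCMB : ST_CMB) (h4 : Pool.Helper99.BK.ST_AN4)
    (h6 : Pool.Helper99.BK.ST_AN6) : ST_AD0 := by
  classical
  intro v K Lc t j1 hK hL hcard I hI x ζ c A X1 Z1 Y G B hX1 hZ1 hY hG hx hζ hc hB hA
  have hBpos : 0 < B := lt_of_lt_of_le (by positivity) hB
  set N : ℕ := Fintype.card (Sx v K × Fin Lc) with hN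
  set T : ℕ := t + K * I.card with hT
  set R : ℝ := Real.exp G with hR
  have hR1 : 1 ≤ R := Real.one_le_exp hG
  have hR0 : 0 < R := by linarith
  choose r hr hr' using fun (j p : Sx v K × Fin Lc) =>
    ad0_entry h4 T (j.1.1 j1 : ℕ) (x p) (((j.2 : ℕ) : ℂ) * c)
      (∏ i ∈ Finset.univ.erase j1, ζ p i ^ (j.1.1 i : ℕ))
  obtain ⟨g, hg, hg'⟩ := hANG (Sx v K × Fin Lc) (Sb v K j1) I (ad0grp j1) T
    (fun b s p => x p ^ s * ∏ i ∈ Finset.univ.erase j1, ζ p i ^ (b.1 i : ℕ))
    (by
      intro t' ht'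
      have h1 := hCMB v K Lc t j1 hK hL hcard
        (fun b => (I.filter (fun j => ad0grp j1 j = b)).card) (by
          rw [← Finset.card_eq_sum_card_fiberwise (fun j _ => Finset.mem_univ _)]
          exact hI)
      rw [← Finset.card_eq_sum_card_fiberwise (fun j _ => Finset.mem_univ _)] at h1
      have h2 : ∑ b, (I.filter (fun j => ad0grp j1 j = b)).card *
          ((I.filter (fun j => ad0grp j1 j = b)).card - 1) ≤ 2 * ∑ j ∈ I, t' j := by
        rw [← Finset.sum_fiberwise I (ad0grp j1) t', Finset.mul_sum]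
        refine Finset.sum_le_sum fun b _ => ad0_sum' _ _ fun s => ?_
        rw [Finset.filter_filter]
        exact ht' b s
      rw [hT]
      have h3 := h1.trans h2
      have h4 : 2 * K * I.card = 2 * (K * I.card) := by ring
      omega)
    (fun j s => ad0co (j.1.1 j1 : ℕ) (((j.2 : ℕ) : ℂ) * c) s)
    (fun j p => r j p) (fun j p => hr j p) A
  set F : ℂ → ℂ := fun w => (Matrix.of (fun p j : Sx v K × Fin Lc => if j ∈ I then
      ((w * x p) ^ (j.1.1 j1 : ℕ) * ∏ i ∈ Finset.univ.erase j1, ζ p i ^ (j.1.1 i : ℕ)) *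
        Complex.exp (w * (((j.2 : ℕ) : ℂ) * c * x p)) else A p j)).det with hF
  have key : ∀ w : ℂ, F w = w ^ T * g w := by
    intro w
    rw [← hg' w, hF]
    beta_reduce
    refine congrArg Matrix.det (Matrix.ext fun p j => ?_)
    simp only [Matrix.of_apply]
    split_ifs with h
    · rw [hr' j p w]
      congr 1
      refine Finset.sum_congr rfl fun s _ => ?_
      congr 3
      refine Finset.prod_congr rfl fun i hi => ?_
      have hi' : i ≠ j1 := Finset.ne_of_mem_erase hi
      rw [ad0grp]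
      simp only
      rw [Function.update_of_ne hi']
    · rfl
  have hbd : ∀ w : ℂ, ‖w‖ = R → ‖F w‖ ≤ (N.factorial : ℝ) * B ^ N * R ^ (K * I.card) := by
    intro w hw
    have e1 : (Matrix.of (fun p j : Sx v K × Fin Lc => if j ∈ I then
      ((w * x p) ^ (j.1.1 j1 : ℕ) * ∏ i ∈ Finset.univ.erase j1, ζ p i ^ (j.1.1 i : ℕ)) *
        Complex.exp (w * (((j.2 : ℕ) : ℂ) * c * x p)) else A p j)) =
      Matrix.of (fun p j : Sx v K × Fin Lc => (if j ∈ I then ((R : ℂ)) ^ K else 1) *
        (Matrix.of (fun p j : Sx v K × Fin Lc => if j ∈ I then (((R : ℂ)) ^ K)⁻¹ *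
      (((w * x p) ^ (j.1.1 j1 : ℕ) * ∏ i ∈ Finset.univ.erase j1, ζ p i ^ (j.1.1 i : ℕ)) *
        Complex.exp (w * (((j.2 : ℕ) : ℂ) * c * x p))) else A p j)) p j) := by
      refine Matrix.ext fun p j => ?_
      simp only [Matrix.of_apply]
      split_ifs with h
      · rw [mul_inv_cancel_left₀]
        exact pow_ne_zero _ (by exact_mod_cast hR0.ne')
      · rw [one_mul]
    rw [hF]
    beta_reduce
    rw [e1, Matrix.det_mul_row, norm_mul]
    have e2 : ‖∏ j : Sx v K × Fin Lc, (if j ∈ I then ((R : ℂ)) ^ K else 1)‖ = R ^ (K * I.card) := by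
      rw [Finset.prod_ite_mem, Finset.univ_inter, Finset.prod_const, norm_pow, norm_pow,
        Complex.norm_real, Real.norm_eq_abs, abs_of_pos hR0, pow_mul]
    rw [e2, mul_comm]
    refine mul_le_mul_of_nonneg_right ?_ (by positivity)
    refine h6 (Sx v K × Fin Lc) _ B ?_
    intro p j
    simp only [Matrix.of_apply]
    split_ifs with h
    · refine le_trans ?_ hB
      rw [norm_mul, norm_inv, norm_pow, Complex.norm_real, Real.norm_eq_abs, abs_of_pos hR0,
        inv_mul_le_iff₀ (by positivity), norm_mul, norm_mul, norm_pow, norm_mul, hw]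
      have hk : (j.1.1 j1 : ℕ) ≤ K := by
        have := (j.1.1 j1).2
        omega
      have b1 : (R * ‖x p‖) ^ (j.1.1 j1 : ℕ) ≤ R ^ K * X1 ^ K := by
        rw [mul_pow]
        refine mul_le_mul (pow_le_pow_right₀ hR1 hk) ?_ (by positivity) (by positivity)
        exact (pow_le_pow_left₀ (norm_nonneg _) (hx p) _).trans (pow_le_pow_right₀ hX1 hk)
      have b2 : ‖∏ i ∈ Finset.univ.erase j1, ζ p i ^ (j.1.1 i : ℕ)‖ ≤ Z1 ^ K := by
        rw [norm_prod]
        calc ∏ i ∈ Finset.univ.erase j1, ‖ζ p i ^ (j.1.1 i : ℕ)‖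
            ≤ ∏ i ∈ Finset.univ.erase j1, Z1 ^ (j.1.1 i : ℕ) := by
              refine Finset.prod_le_prod (fun i _ => norm_nonneg _) fun i _ => ?_
              rw [norm_pow]
              exact pow_le_pow_left₀ (norm_nonneg _) (hζ p i) _
          _ = Z1 ^ (∑ i ∈ Finset.univ.erase j1, (j.1.1 i : ℕ)) := Finset.prod_pow_eq_pow_sum _ _ _
          _ ≤ Z1 ^ K := by
              refine pow_le_pow_right₀ hZ1 (le_trans ?_ j.1.2)
              exact Finset.sum_le_sum_of_subset (Finset.erase_subset _ _)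
      have b3 : ‖Complex.exp (w * (((j.2 : ℕ) : ℂ) * c * x p))‖ ≤ Real.exp (Lc * Y) := by
        rw [Complex.norm_exp]
        apply Real.exp_le_exp.2
        refine (Complex.re_le_norm _).trans ?_
        have h11 : w * (((j.2 : ℕ) : ℂ) * c * x p) = ((j.2 : ℕ) : ℂ) * ((c * x p) * w) := by ring
        rw [h11, norm_mul, norm_mul (c * x p), hw, Complex.norm_natCast]
        have h12 : ((j.2 : ℕ) : ℝ) ≤ Lc := by exact_mod_cast (by have := j.2.2; omega)
        exact mul_le_mul h12 (hc p) (by positivity) (by positivity)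
      calc (R * ‖x p‖) ^ (j.1.1 j1 : ℕ) * ‖∏ i ∈ Finset.univ.erase j1, ζ p i ^ (j.1.1 i : ℕ)‖ *
            ‖Complex.exp (w * (((j.2 : ℕ) : ℂ) * c * x p))‖
          ≤ (R ^ K * X1 ^ K) * Z1 ^ K * Real.exp (Lc * Y) := by
            refine mul_le_mul (mul_le_mul b1 b2 (norm_nonneg _) (by positivity)) b3
              (norm_nonneg _) (by positivity)
        _ = R ^ K * (X1 ^ K * Z1 ^ K * Real.exp (Lc * Y)) := by ring
    · exact hA p j
  have h7 := hAN5R T F g hg key _ R hR1 hbd
  have h8 : ‖F 1‖ * R ^ t ≤ (N.factorial : ℝ) * B ^ N := by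
    rw [hT, pow_add, ← mul_assoc] at h7
    exact le_of_mul_le_mul_right h7 (by positivity)
  have h9 : F 1 = (Matrix.of (fun r j : Sx v K × Fin Lc => if j ∈ I then
        (x r ^ (j.1.1 j1 : ℕ) * ∏ i ∈ Finset.univ.erase j1, ζ r i ^ (j.1.1 i : ℕ)) *
          Complex.exp (((j.2 : ℕ) : ℂ) * (c * x r)) else A r j)).det := by
    rw [hF]
    beta_reduce
    refine congrArg Matrix.det (Matrix.ext fun p j => ?_)
    simp only [Matrix.of_apply, one_mul, mul_assoc]
  rw [← h9]
  have h10 : Real.exp (-(G * t)) = (R ^ t)⁻¹ := by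
    rw [Real.exp_neg, hR, ← Real.exp_nat_mul, mul_comm]
  rw [h10, ← div_eq_mul_inv, le_div_iff₀ (by positivity)]
  exact h8

end Pool.Helper99.SZ
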